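import Pool.Agent.N659.HB.Stm8

/-!
S_OG: the mean of the square of the resolvent (project SD of helper659, written by helper935).
-/

set_option autoImplicit false

namespace Pool.Agent.N935.SD.OG

open MeasureTheory Filter Pool.Agent.W792.LL Pool.Agent.W792.WA Pool.Agent.N659.HB
open scoped Topology ENNReal ComplexConjugate

noncomputable section

variable {d : ℕ}

lemma single_eq (b : Fin d → ℤ) (c : ℂ) : (lp.single 2 b c : l2 (Fin d → ℤ)) = c • dl b := by
  unfold dl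
  rw [← lp.single_smul, smul_eq_mul, mul_one]

lemma hs (u : l2 (Fin d → ℤ)) : HasSum (fun b => u b • dl b) u := by
  have := lp.hasSum_single (p := 2) (by norm_num) u
  simpa only [single_eq] using this

lemma inner_dl (x : Fin d → ℤ) (f : l2 (Fin d → ℤ)) : inner ℂ (dl x) f = f x := by
  unfold dl
  rw [lp.inner_single_left]
  simp

lemma norm_dl (x : Fin d → ℤ) : ‖(dl x : l2 (Fin d → ℤ))‖ = 1 := by
  unfold dl
  rw [lp.norm_single (by norm_num), norm_one]

/-- coordinates of `T u` -/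
lemma hs_apply (T : l2 (Fin d → ℤ) →L[ℂ] l2 (Fin d → ℤ)) (u : l2 (Fin d → ℤ)) (x : Fin d → ℤ) :
    HasSum (fun b => u b * T (dl b) x) (T u x) := by
  have h1 := (hs u).mapL ((innerSL ℂ (dl x)).comp T)
  simp only [ContinuousLinearMap.comp_apply, innerSL_apply_apply, inner_dl, map_smul] at h1
  simpa only [lp.coeFn_smul, Pi.smul_apply, smul_eq_mul] using h1

lemma schur (s : Finset (Fin d → ℤ)) (q : (Fin d → ℤ) → (Fin d → ℤ) → ℝ) (M : ℝ) (hM : 0 ≤ M)
    (hq0 : ∀ a b, 0 ≤ q a b) (hsym : ∀ a b, q a b = q b a)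
    (hq : ∀ a, ∑ b ∈ s, q a b ≤ M) (u u' : l2 (Fin d → ℤ)) :
    ∑ a ∈ s, ∑ b ∈ s, ‖u' a‖ * ‖u b‖ * q a b ≤ M * (‖u'‖ * ‖u‖) := by
  have hn : ∀ w : l2 (Fin d → ℤ), ∑ a ∈ s, ‖w a‖ ^ 2 ≤ ‖w‖ ^ 2 := by
    intro w
    have h := lp.sum_rpow_le_norm_rpow (p := 2) (by norm_num) w s
    simpa using h
  have e1 : ∑ a ∈ s, ∑ b ∈ s, ‖u' a‖ * ‖u b‖ * q a b =
      ∑ p ∈ s ×ˢ s, (‖u' p.1‖ * Real.sqrt (q p.1 p.2)) * (‖u p.2‖ * Real.sqrt (q p.1 p.2)) := by
    rw [Finset.sum_product]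
    refine Finset.sum_congr rfl fun a _ => Finset.sum_congr rfl fun b _ => ?_
    have := Real.mul_self_sqrt (hq0 a b)
    calc ‖u' a‖ * ‖u b‖ * q a b = ‖u' a‖ * ‖u b‖ * (Real.sqrt (q a b) * Real.sqrt (q a b)) := by
          rw [this]
      _ = _ := by ring
  have e2 := Finset.sum_mul_sq_le_sq_mul_sq (s ×ˢ s)
    (fun p => ‖u' p.1‖ * Real.sqrt (q p.1 p.2)) (fun p => ‖u p.2‖ * Real.sqrt (q p.1 p.2))
  have e3 : ∑ p ∈ s ×ˢ s, (‖u' p.1‖ * Real.sqrt (q p.1 p.2)) ^ 2 ≤ M * ‖u'‖ ^ 2 := by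
    rw [Finset.sum_product]
    calc ∑ a ∈ s, ∑ b ∈ s, (‖u' a‖ * Real.sqrt (q a b)) ^ 2
        = ∑ a ∈ s, ‖u' a‖ ^ 2 * ∑ b ∈ s, q a b := by
          refine Finset.sum_congr rfl fun a _ => ?_
          rw [Finset.mul_sum]
          refine Finset.sum_congr rfl fun b _ => ?_
          rw [mul_pow, Real.sq_sqrt (hq0 a b)]
      _ ≤ ∑ a ∈ s, ‖u' a‖ ^ 2 * M :=
          Finset.sum_le_sum fun a _ => mul_le_mul_of_nonneg_left (hq a) (by positivity)
      _ = M * ∑ a ∈ s, ‖u' a‖ ^ 2 := by rw [← Finset.sum_mul, mul_comm]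
      _ ≤ _ := mul_le_mul_of_nonneg_left (hn u') hM
  have e4 : ∑ p ∈ s ×ˢ s, (‖u p.2‖ * Real.sqrt (q p.1 p.2)) ^ 2 ≤ M * ‖u‖ ^ 2 := by
    rw [Finset.sum_product, Finset.sum_comm]
    calc ∑ b ∈ s, ∑ a ∈ s, (‖u b‖ * Real.sqrt (q a b)) ^ 2
        = ∑ b ∈ s, ‖u b‖ ^ 2 * ∑ a ∈ s, q b a := by
          refine Finset.sum_congr rfl fun b _ => ?_
          rw [Finset.mul_sum]
          refine Finset.sum_congr rfl fun a _ => ?_
          rw [mul_pow, Real.sq_sqrt (hq0 a b), hsym a b]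
      _ ≤ ∑ b ∈ s, ‖u b‖ ^ 2 * M :=
          Finset.sum_le_sum fun a _ => mul_le_mul_of_nonneg_left (hq a) (by positivity)
      _ = M * ∑ b ∈ s, ‖u b‖ ^ 2 := by rw [← Finset.sum_mul, mul_comm]
      _ ≤ _ := mul_le_mul_of_nonneg_left (hn u) hM
  rw [e1]
  refine abs_le_of_sq_le_sq' ?_ (by positivity) |>.2
  calc _ ≤ _ := e2
    _ ≤ (M * ‖u'‖ ^ 2) * (M * ‖u‖ ^ 2) := mul_le_mul e3 e4
        (Finset.sum_nonneg fun _ _ => sq_nonneg _) (by positivity)
    _ = _ := by ring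

theorem gen {Ω : Type} [MeasurableSpace Ω] (P : Measure Ω) [IsProbabilityMeasure P]
    (G : Ω → l2 (Fin d → ℤ) →L[ℂ] l2 (Fin d → ℤ)) (c M : ℝ) (hc : 0 ≤ c) (hM : 0 ≤ M)
    (hG : ∀ v, ‖G v‖ ≤ c) (hm : ∀ u x, Measurable fun v => G v u x)
    (hsym : ∀ v x y, G v (dl y) x = G v (dl x) y)
    (hK : ∀ a, ∑' b, ∑' x, ENNReal.ofReal ‖∫ v, G v (dl x) a * G v (dl b) x ∂P‖ ≤
      ENNReal.ofReal M) (u u' : l2 (Fin d → ℤ)) :
    ‖∫ v, inner ℂ u' (G v (G v u)) ∂P‖ ≤ M * (‖u'‖ * ‖u‖) := by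
  -- the entries of the square
  have hq : ∀ v a b, HasSum (fun x => G v (dl x) a * G v (dl b) x) (G v (G v (dl b)) a) := by
    intro v a b
    have := hs_apply (G v) (G v (dl b)) a
    simpa only [mul_comm] using this
  have hqm : ∀ a b, Measurable fun v => G v (G v (dl b)) a := by
    intro a b
    have : (fun v => G v (G v (dl b)) a) = fun v => ∑' x, G v (dl x) a * G v (dl b) x := by
      funext v
      exact (hq v a b).tsum_eq.symm
    rw [this]
    exact Measurable.tsum fun x => (hm (dl x) a).mul (hm (dl b) x)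
  have hGG : ∀ v w, ‖G v (G v w)‖ ≤ c * c * ‖w‖ := by
    intro v w
    calc ‖G v (G v w)‖ ≤ ‖G v‖ * (‖G v‖ * ‖w‖) :=
          ((G v).le_opNorm _).trans (mul_le_mul_of_nonneg_left ((G v).le_opNorm _) (norm_nonneg _))
      _ ≤ c * (c * ‖w‖) := mul_le_mul (hG v) (mul_le_mul_of_nonneg_right (hG v) (norm_nonneg _))
          (by positivity) hc
      _ = _ := by ring
  have hqb : ∀ v a b, ‖G v (G v (dl b)) a‖ ≤ c * c := by
    intro v a b
    refine (lp.norm_apply_le_norm (by norm_num) _ _).trans ?_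
    have := hGG v (dl b)
    rwa [norm_dl, mul_one] at this
  have hqi : ∀ a b, Integrable (fun v => G v (G v (dl b)) a) P := fun a b =>
    Integrable.of_bound (hqm a b).aestronglyMeasurable (c * c) (Eventually.of_forall fun v => hqb v a b)
  have hqs : ∀ v a b, G v (G v (dl b)) a = G v (G v (dl a)) b := by
    intro v a b
    rw [← (hq v a b).tsum_eq, ← (hq v b a).tsum_eq]
    refine tsum_congr fun x => ?_
    rw [hsym v a x, hsym v x b, mul_comm]
  -- the kernel
  have hker : ∀ a b, ENNReal.ofReal ‖∫ v, G v (G v (dl b)) a ∂P‖ ≤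
      ∑' x, ENNReal.ofReal ‖∫ v, G v (dl x) a * G v (dl b) x ∂P‖ := by
    intro a b
    have h1 : ∫ v, G v (G v (dl b)) a ∂P = ∑' x, ∫ v, G v (dl x) a * G v (dl b) x ∂P := by
      rw [← integral_tsum]
      · refine integral_congr_ae (Eventually.of_forall fun v => ?_)
        exact (hq v a b).tsum_eq.symm
      · intro x
        exact ((hm (dl x) a).mul (hm (dl b) x)).aestronglyMeasurable
      · rw [← lintegral_tsum]
        · have hb : ∀ v, ∑' x, ‖G v (dl x) a * G v (dl b) x‖ₑ ≤ ENNReal.ofReal (c * c) := by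
            intro v
            have h2 : (2 : ℝ≥0∞).toReal.HolderConjugate (2 : ℝ≥0∞).toReal := by
              rw [ENNReal.toReal_ofNat]
              exact Real.HolderConjugate.two_two
            obtain ⟨h3, h4⟩ := lp.tsum_mul_le_mul_norm h2 (G v (dl a)) (G v (dl b))
            have h5 : ∀ x, ‖G v (dl x) a * G v (dl b) x‖ₑ =
                ENNReal.ofReal (‖G v (dl a) x‖ * ‖G v (dl b) x‖) := by
              intro x
              rw [← ofReal_norm, norm_mul, hsym v a x]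
            rw [tsum_congr h5, ← ENNReal.ofReal_tsum_of_nonneg (fun x => by positivity) h3]
            apply ENNReal.ofReal_le_ofReal
            refine h4.trans ?_
            have h6 : ∀ z : Fin d → ℤ, ‖G v (dl z)‖ ≤ c := fun z => by
              have := (G v).le_opNorm (dl z)
              rw [norm_dl, mul_one] at this
              exact this.trans (hG v)
            exact mul_le_mul (h6 a) (h6 b) (norm_nonneg _) hc
          have : ∫⁻ v, ∑' x, ‖G v (dl x) a * G v (dl b) x‖ₑ ∂P ≤ ENNReal.ofReal (c * c) := by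
            calc _ ≤ ∫⁻ v, ENNReal.ofReal (c * c) ∂P := lintegral_mono hb
              _ = _ := by simp
          exact (this.trans_lt ENNReal.ofReal_lt_top).ne
        · intro x
          exact ((hm (dl x) a).mul (hm (dl b) x)).aestronglyMeasurable.enorm
    rw [h1]
    simp only [ofReal_norm]
    exact enorm_tsum_le_tsum_enorm
  have hrow : ∀ (s : Finset (Fin d → ℤ)) (a : Fin d → ℤ),
      ∑ b ∈ s, ‖∫ v, G v (G v (dl b)) a ∂P‖ ≤ M := by
    intro s a
    have h1 : ENNReal.ofReal (∑ b ∈ s, ‖∫ v, G v (G v (dl b)) a ∂P‖) ≤ ENNReal.ofReal M := by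
      rw [ENNReal.ofReal_sum_of_nonneg fun _ _ => norm_nonneg _]
      exact (Finset.sum_le_sum fun b _ => hker a b).trans ((ENNReal.sum_le_tsum s).trans (hK a))
    exact (ENNReal.ofReal_le_ofReal_iff hM).1 h1
  -- finite sums
  have hfin : ∀ s : Finset (Fin d → ℤ),
      ‖∫ v, inner ℂ (∑ a ∈ s, u' a • dl a) (G v (G v (∑ b ∈ s, u b • dl b))) ∂P‖ ≤
        M * (‖u'‖ * ‖u‖) := by
    intro s
    have h1 : ∀ v, inner ℂ (∑ a ∈ s, u' a • dl a) (G v (G v (∑ b ∈ s, u b • dl b))) =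
        ∑ a ∈ s, ∑ b ∈ s, (conj (u' a) * u b) * G v (G v (dl b)) a := by
      intro v
      rw [sum_inner]
      refine Finset.sum_congr rfl fun a _ => ?_
      rw [inner_smul_left, map_sum, map_sum, inner_sum, Finset.mul_sum]
      refine Finset.sum_congr rfl fun b _ => ?_
      rw [map_smul, map_smul, inner_smul_right, inner_dl]
      ring
    simp only [h1]
    rw [integral_finsetSum s fun a _ => integrable_finsetSum s fun b _ => (hqi a b).const_mul _]
    have h2 : ∀ a ∈ s, ∫ v, ∑ b ∈ s, (conj (u' a) * u b) * G v (G v (dl b)) a ∂P =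
        ∑ b ∈ s, (conj (u' a) * u b) * ∫ v, G v (G v (dl b)) a ∂P := by
      intro a _
      rw [integral_finsetSum s fun b _ => (hqi a b).const_mul _]
      exact Finset.sum_congr rfl fun b _ => integral_const_mul _ _
    rw [Finset.sum_congr rfl h2]
    calc _ ≤ ∑ a ∈ s, ∑ b ∈ s, ‖(conj (u' a) * u b) * ∫ v, G v (G v (dl b)) a ∂P‖ :=
          (norm_sum_le _ _).trans (Finset.sum_le_sum fun a _ => norm_sum_le _ _)
      _ = ∑ a ∈ s, ∑ b ∈ s, ‖u' a‖ * ‖u b‖ * ‖∫ v, G v (G v (dl b)) a ∂P‖ := by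
          simp only [norm_mul, RCLike.norm_conj]
      _ ≤ _ := schur s (fun a b => ‖∫ v, G v (G v (dl b)) a ∂P‖) M hM
          (fun _ _ => norm_nonneg _) (fun a b => by
            simp only
            congr 1
            exact integral_congr_ae (Eventually.of_forall fun v => hqs v a b))
          (fun a => hrow s a) u u'
  -- the limit
  have hlim : Tendsto (fun s : Finset (Fin d → ℤ) =>
      ∫ v, inner ℂ (∑ a ∈ s, u' a • dl a) (G v (G v (∑ b ∈ s, u b • dl b))) ∂P) atTop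
      (𝓝 (∫ v, inner ℂ u' (G v (G v u)) ∂P)) := by
    have hns : ∀ (w : l2 (Fin d → ℤ)) (s : Finset (Fin d → ℤ)), ‖∑ a ∈ s, w a • dl a‖ ≤ ‖w‖ := by
      intro w s
      have h1 := lp.norm_sum_single (p := 2) (by norm_num) (fun i => w i) s
      have h2 := lp.sum_rpow_le_norm_rpow (p := 2) (by norm_num) w s
      rw [← h1] at h2
      simp only [single_eq] at h2
      have h3 : ‖∑ a ∈ s, w a • dl a‖ ^ 2 ≤ ‖w‖ ^ 2 := by simpa using h2
      exact (abs_le_of_sq_le_sq' h3 (norm_nonneg _)).2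
    refine tendsto_integral_filter_of_dominated_convergence (fun _ => ‖u'‖ * (c * c * ‖u‖)) ?_ ?_
      (integrable_const _) ?_
    · refine Eventually.of_forall fun s => ?_
      have h1 : (fun v => inner ℂ (∑ a ∈ s, u' a • dl a) (G v (G v (∑ b ∈ s, u b • dl b)))) =
          fun v => ∑ a ∈ s, ∑ b ∈ s, (conj (u' a) * u b) * G v (G v (dl b)) a := by
        funext v
        rw [sum_inner]
        refine Finset.sum_congr rfl fun a _ => ?_
        rw [inner_smul_left, map_sum, map_sum, inner_sum, Finset.mul_sum]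
        refine Finset.sum_congr rfl fun b _ => ?_
        rw [map_smul, map_smul, inner_smul_right, inner_dl]
        ring
      rw [h1]
      exact (Finset.measurable_sum s fun a _ => Finset.measurable_sum s fun b _ =>
        (hqm a b).const_mul _).aestronglyMeasurable
    · refine Eventually.of_forall fun s => Eventually.of_forall fun v => ?_
      refine (norm_inner_le_norm _ _).trans ?_
      refine mul_le_mul (hns u' s) ((hGG v _).trans ?_) (norm_nonneg _) (norm_nonneg _)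
      exact mul_le_mul_of_nonneg_left (hns u s) (by positivity)
    · refine Eventually.of_forall fun v => ?_
      have h1 : Tendsto (fun s : Finset (Fin d → ℤ) => ∑ a ∈ s, u' a • dl a) atTop (𝓝 u') := hs u'
      have h2 : Tendsto (fun s : Finset (Fin d → ℤ) => ∑ a ∈ s, u a • dl a) atTop (𝓝 u) := hs u
      have h3 : Tendsto (fun s : Finset (Fin d → ℤ) => G v (G v (∑ a ∈ s, u a • dl a))) atTop
          (𝓝 (G v (G v u))) := (((G v).continuous.comp (G v).continuous).tendsto u).comp h2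
      exact h1.inner h3
  exact le_of_tendsto hlim.norm (Eventually.of_forall hfin)

theorem main : S_GR → S_RK → S_KB2 → S_OG := by
  intro hGR hRK hKB2 d w θ _ hw hθ0 hθ1
  obtain ⟨C, γ₀, hC, hγ₀, hK⟩ := hKB2 d w θ hw hθ0 hθ1
  refine ⟨C, γ₀, hC, hγ₀, ?_⟩
  intro γ hγ hγγ ζ hre him him2 u u'
  have hgr := hGR d w ζ.im (xs d γ ζ) hw.le him (by
    intro k
    show (((γ * lap d k : ℝ) : ℂ) - ζ).im ≤ -ζ.im
    simp)
  obtain ⟨-, -, -, hsym, -⟩ := hRK d w γ ζ hw hγ.le him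
  refine gen (Pn (unif w) (Fin d → ℤ)) (fun v => gr w (xs d γ ζ) v) (1 / ζ.im)
    (C * ζ.im ^ (-(3 / 4) : ℝ)) (by positivity)
    (mul_nonneg (by linarith) (Real.rpow_nonneg him.le _))
    (fun v => (hgr.1 v).2.2) hgr.2 ?_ ?_ u u'
  · intro v x y
    exact (hsym v x y).1
  · intro a
    exact hK γ hγ hγγ ζ hre him him2 a

end

end Pool.Agent.N935.SD.OG
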